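import Pool.Agent.Y541.PCG.Order

/-!
# The reduction is computable in polynomial time
-/

set_option autoImplicit false

namespace Pool.Agent.Y541.PCG

open Pool.Agent.NPC Pool.Agent.H622R2
open Pool.Agent.NPC.WC648 (NV NAE)

variable {α : Type} [TEnc α]

theorem clCon_poly {i : α → ℕ} (hi : Poly i) : Poly (fun a => clCon (i a)) := by
  unfold clCon
  fun_prop

attribute [fun_prop] clCon_poly

theorem occ_poly {φ : α → List Cl} (hf : Poly φ) : Poly (fun a => occ (φ a)) := by
  unfold occ
  fun_prop

attribute [fun_prop] occ_poly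

theorem sameCon_poly {φ : α → List Cl} (hf : Poly φ) : Poly (fun a => sameCon (φ a)) := by
  unfold sameCon
  fun_prop

attribute [fun_prop] sameCon_poly

theorem range_length_poly {β : Type} [TEnc β] {l : α → List β} (hl : Poly l) :
    Poly (fun a => List.range (l a).length) :=
  (UPoly.length hl).range

theorem allCon_poly {φ : α → List Cl} (hf : Poly φ) : Poly (fun a => allCon (φ a)) := by
  unfold allCon
  refine NPC.Poly.append ?_ (by fun_prop)
  exact NPC.Poly.flatMap (F := fun (_ : α) i => clCon i) (range_length_poly hf) (by fun_prop)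

attribute [fun_prop] allCon_poly

theorem adjE_poly {C : α → List Con} {u v : α → Lab} (hC : Poly C) (hu : Poly u) (hv : Poly v) :
    Poly (fun a => adjE (C a) (u a) (v a)) := by
  unfold adjE
  fun_prop

theorem adjS_poly {C : α → List Con} {u v : α → Lab} (hC : Poly C) (hu : Poly u) (hv : Poly v) :
    Poly (fun a => adjS (C a) (u a) (v a)) := by
  unfold adjS
  fun_prop

attribute [fun_prop] adjE_poly adjS_poly

/-- the vertices of the instance -/
def vsφ (φ : List Cl) : List Lab := vsP (1 + 4 * φ.length) (allCon φ).length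

theorem vsφ_poly : Poly vsφ := by
  unfold vsφ vsP
  have h1 : UPoly (fun φ : List Cl => 1 + 4 * φ.length) :=
    (UPoly.const 1).add ((UPoly.const 4).mul (UPoly.length NPC.Poly.id))
  refine NPC.Poly.append (NPC.Poly.flatMap (F := fun (_ : List Cl) x =>
    [((0 : ℕ), x), (1, x), (2, x)]) h1.range (by fun_prop)) ?_
  refine NPC.Poly.append (NPC.Poly.map (F := fun (_ : List Cl) k => ((3 : ℕ), k))
    (range_length_poly (by fun_prop)) (by fun_prop)) (by fun_prop)

/-- the reduction -/
def redP (φ : List Cl) : List (List Bool) × List (List Bool) :=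
  (mat (vsφ φ) (adjE (allCon φ)), mat (vsφ φ) (adjS (allCon φ)))

theorem redP_poly : Poly redP := by
  unfold redP
  refine NPC.Poly.pair ?_ ?_
  · exact mat_poly (l := vsφ) (adj := fun φ => adjE (allCon φ)) vsφ_poly (by fun_prop)
  · exact mat_poly (l := vsφ) (adj := fun φ => adjS (allCon φ)) vsφ_poly (by fun_prop)

end Pool.Agent.Y541.PCG
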