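import Pool.Agent.Y541.PCG.Tree
import Pool.Agent.Y541.PCG.PolyT

/-!
# Completeness of the reduction, and NP-hardness
-/

set_option autoImplicit false

namespace Pool.Agent.Y541.PCG

open Pool.Agent.NPC Pool.Agent.H622R2
open Pool.Agent.NPC.WC648 (NV NAE hardI_NAE)

section

variable (f : ℕ → ℕ) (F : ℕ) (C : List Con)

/-- centre -/
def cen (u : Lab) : ℕ :=
  if u.1 = 0 then 4 * f u.2 else if u.1 = 1 then 2 * f u.2 else if u.1 = 2 then 2 * f u.2 + 2 * F
  else if u.1 = 3 then 2 * f (C.getD u.2 (0, 0, 0)).1 + 2 * f (C.getD u.2 (0, 0, 0)).2.1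
  else if u.2 = 0 then 0 else 4 * F

/-- radius -/
def rad (u : Lab) : ℕ :=
  if u.1 = 0 then 1 else if u.1 = 1 then 2 * f u.2 else if u.1 = 2 then 2 * F - 2 * f u.2
  else if u.1 = 3 then 2 * ((f (C.getD u.2 (0, 0, 0)).1 - f (C.getD u.2 (0, 0, 0)).2.1) +
    (f (C.getD u.2 (0, 0, 0)).2.1 - f (C.getD u.2 (0, 0, 0)).1))
  else 1

/-- vertex of the tree to which the leaf is attached -/
def attL (u : Lab) : ℕ :=
  if u.1 = 4 ∧ 2 ≤ u.2 then (if u.2 = 2 ∨ u.2 = 5 then 1 else 2) else 3 + cen f F C u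

/-- weight of the edge of the leaf -/
noncomputable def pendL (u : Lab) : ℝ :=
  if u.1 = 4 ∧ 2 ≤ u.2 then (if u.2 = 2 ∨ u.2 = 3 then 17 * (F : ℝ) else F)
  else 10 * (F : ℝ) - rad f F C u

variable {f F C}

theorem cen_le (hf : ∀ x, 1 ≤ f x ∧ f x < F) (u : Lab) : cen f F C u ≤ 4 * F := by
  unfold cen
  have h1 := hf u.2
  have h2 := hf (C.getD u.2 (0, 0, 0)).1
  have h3 := hf (C.getD u.2 (0, 0, 0)).2.1
  split_ifs <;> omega

theorem rad_le (hf : ∀ x, 1 ≤ f x ∧ f x < F) (u : Lab) : rad f F C u ≤ 2 * F := by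
  unfold rad
  have h1 := hf u.2
  have h2 := hf (C.getD u.2 (0, 0, 0)).1
  have h3 := hf (C.getD u.2 (0, 0, 0)).2.1
  split_ifs <;> omega

/-- main vertices -/
def Mn (u : Lab) : Prop := ¬ (u.1 = 4 ∧ 2 ≤ u.2)

theorem complete {N : ℕ} (hf : ∀ x, 1 ≤ f x ∧ f x < F)
    (hinj : ∀ x y, x < N → y < N → x ≠ y → f x ≠ f y)
    (hcon : ∀ c ∈ C, (f c.2.2 < f c.1 ∧ f c.2.2 < f c.2.1) ∨
      (f c.1 < f c.2.2 ∧ f c.2.1 < f c.2.2)) :
    GenPCG (labGraph (vsP N C.length) (adjE C)) (labGraph (vsP N C.length) (adjS C)) := by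
  classical
  have hF : 0 < F := by have := hf 0; omega
  have hFr : (1 : ℝ) ≤ F := by exact_mod_cast hF
  have hatt : ∀ v : {x // x ∈ vsP N C.length}, 0 < attL f F C v.1 ∧
      attL f F C v.1 < 4 * F + 4 := by
    intro v
    have := cen_le (C := C) hf v.1
    unfold attL
    split_ifs <;> omega
  have hradr : ∀ u : Lab, (rad f F C u : ℝ) ≤ 2 * F := fun u => by exact_mod_cast rad_le hf u
  have hcenr : ∀ u : Lab, (cen f F C u : ℝ) ≤ 4 * F := fun u => by exact_mod_cast cen_le hf u
  have hpend : ∀ v : {x // x ∈ vsP N C.length}, 0 < pendL f F C v.1 := by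
    intro v
    have := hradr v.1
    unfold pendL
    split_ifs <;> linarith
  have m4 : ∀ j < 6, ((4, j) : Lab) ∈ vsP N C.length := fun j hj => (mem_vsP _).2 (by simp [hj])
  have e1 : ∃ v : {x // x ∈ vsP N C.length}, attL f F C v.1 = 1 :=
    ⟨⟨(4, 2), m4 _ (by omega)⟩, by simp [attL]⟩
  have e2 : ∃ v : {x // x ∈ vsP N C.length}, attL f F C v.1 = 2 :=
    ⟨⟨(4, 3), m4 _ (by omega)⟩, by simp [attL]⟩
  have e3 : ∃ v : {x // x ∈ vsP N C.length}, attL f F C v.1 = 4 * F + 3 :=
    ⟨⟨(4, 1), m4 _ (by omega)⟩, by simp [attL, cen]; omega⟩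
  have : Finite {x // x ∈ vsP N C.length} := inferInstance
  let L := theTree F (4 * F) (fun v : {x // x ∈ vsP N C.length} => attL f F C v.1) hatt
    (fun v => pendL f F C v.1) hF hpend e1 e2 (by omega) e3
  have hL : ∀ u v : {x // x ∈ vsP N C.length}, u ≠ v → L.dist u v =
      pendL f F C u.1 + bd F (attL f F C u.1) (attL f F C v.1) + pendL f F C v.1 := by
    intro u v huv
    exact theTree_dist F (4 * F) _ hatt _ hF hpend e1 e2 (by omega) e3 huv
  -- distances of main vertices
  have hmain : ∀ u v : {x // x ∈ vsP N C.length}, u ≠ v → Mn u.1 → Mn v.1 → L.dist u v =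
      |(cen f F C u.1 : ℝ) - cen f F C v.1| + 20 * F - rad f F C u.1 - rad f F C v.1 := by
    intro u v huv hu hv
    rw [hL u v huv]
    unfold Mn at hu hv
    simp only [pendL, attL, hu, hv, if_false]
    unfold bd
    rw [if_pos (by omega), if_pos (by omega)]
    push_cast
    rw [show (3 : ℝ) + cen f F C u.1 - (3 + cen f F C v.1) =
      (cen f F C u.1 : ℝ) - cen f F C v.1 by ring]
    ring
  have far : ∀ u v : {x // x ∈ vsP N C.length}, u ≠ v → Mn u.1 → Mn v.1 →
      (cen f F C u.1 + (rad f F C u.1 + rad f F C v.1) ≤ cen f F C v.1 ∨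
        cen f F C v.1 + (rad f F C u.1 + rad f F C v.1) ≤ cen f F C u.1) →
      20 * (F : ℝ) ≤ L.dist u v ∧ L.dist u v ≤ 44 * F := by
    intro u v huv hu hv h
    rw [hmain u v huv hu hv]
    have h1 := hcenr u.1
    have h2 := hcenr v.1
    have h3 : (0 : ℝ) ≤ cen f F C u.1 := Nat.cast_nonneg _
    have h4 : (0 : ℝ) ≤ cen f F C v.1 := Nat.cast_nonneg _
    have h5 : (0 : ℝ) ≤ rad f F C u.1 := Nat.cast_nonneg _
    have h6 : (0 : ℝ) ≤ rad f F C v.1 := Nat.cast_nonneg _
    have h7 : |(cen f F C u.1 : ℝ) - cen f F C v.1| ≤ 4 * F :=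
      abs_le.2 ⟨by linarith, by linarith⟩
    refine ⟨?_, by linarith⟩
    rcases h with h | h
    · have h' : (cen f F C u.1 : ℝ) + (rad f F C u.1 + rad f F C v.1) ≤ cen f F C v.1 := by
        exact_mod_cast h
      have := neg_abs_le ((cen f F C u.1 : ℝ) - cen f F C v.1)
      linarith
    · have h' : (cen f F C v.1 : ℝ) + (rad f F C u.1 + rad f F C v.1) ≤ cen f F C u.1 := by
        exact_mod_cast h
      have := le_abs_self ((cen f F C u.1 : ℝ) - cen f F C v.1)
      linarith
  have near : ∀ u v : {x // x ∈ vsP N C.length}, u ≠ v → Mn u.1 → Mn v.1 →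
      (cen f F C u.1 < cen f F C v.1 + (rad f F C u.1 + rad f F C v.1) ∧
        cen f F C v.1 < cen f F C u.1 + (rad f F C u.1 + rad f F C v.1)) →
      ¬ (20 * (F : ℝ) ≤ L.dist u v ∧ L.dist u v ≤ 44 * F) := by
    intro u v huv hu hv ⟨h1, h2⟩ h
    rw [hmain u v huv hu hv] at h
    have h1' : (cen f F C u.1 : ℝ) < cen f F C v.1 + (rad f F C u.1 + rad f F C v.1) := by
      exact_mod_cast h1
    have h2' : (cen f F C v.1 : ℝ) < cen f F C u.1 + (rad f F C u.1 + rad f F C v.1) := by
      exact_mod_cast h2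
    have : |(cen f F C u.1 : ℝ) - cen f F C v.1| < rad f F C u.1 + rad f F C v.1 :=
      abs_lt.2 ⟨by linarith, by linarith⟩
    linarith [h.1]
  have hEd : ∀ u v : {x // x ∈ vsP N C.length}, u ≠ v → adjE C u.1 v.1 = true →
      20 * (F : ℝ) ≤ L.dist u v ∧ L.dist u v ≤ 44 * F := by
    intro u v huv h
    have hne : u.1 ≠ v.1 := fun h => huv (Subtype.ext h)
    have hu := (mem_vsP _).1 u.2
    have hv := (mem_vsP _).1 v.2
    simp only [adjE, Bool.or_eq_true, Bool.and_eq_true, decide_eq_true_eq] at h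
    rcases h with ((((((h | h) | h) | h) | h) | h) | h) | h
    · obtain ⟨g1, g2⟩ := h
      have hxy : u.1.2 ≠ v.1.2 := fun h => hne (Prod.ext (g1.trans g2.symm) h)
      have hlt1 : u.1.2 < N := by omega
      have hlt2 : v.1.2 < N := by omega
      have hff := hinj _ _ hlt1 hlt2 hxy
      apply far u v huv (by unfold Mn; omega) (by unfold Mn; omega)
      simp only [cen, rad, g1, g2, if_true]
      omega
    · obtain ⟨g1, g2, g3⟩ := h
      have hb := hf u.1.2
      apply far u v huv (by unfold Mn; omega) (by unfold Mn; omega)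
      simp only [cen, rad, g1, g2, g3, if_true, if_false, show ¬ (1 = 0) by omega,
        show ¬ (2 = 0) by omega, show ¬ (2 = 1) by omega]
      rw [g3] at hb
      omega
    · obtain ⟨g1, g2 | g2⟩ := h
      · apply far u v huv (by simp [Mn, g1]) (by simp [Mn, g2])
        simp only [cen, rad, g1, g2]
        simp
        omega
      · have hb := hf v.1.2
        apply far u v huv (by simp [Mn, g1]) (by unfold Mn; omega)
        simp only [cen, rad, g1, g2]
        simp
        omega
    · obtain ⟨g1, g2⟩ := h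
      have hb := hf v.1.2
      apply far u v huv (by simp [Mn, g1]) (by unfold Mn; omega)
      simp only [cen, rad, g1, g2]
      simp
      omega
    · obtain ⟨g1, g2⟩ := h
      have hk : u.1.2 < C.length := by omega
      have hc := hcon (C.getD u.1.2 (0, 0, 0)) (by
        rw [List.getD_eq_getElem?_getD, List.getElem?_eq_getElem hk]
        exact List.getElem_mem hk)
      apply far u v huv (by unfold Mn; omega) (by simp [Mn, g2])
      simp only [cen, rad, g1, g2]
      simp only [if_true, if_false, show ¬ (3 = 0) by omega, show ¬ (3 = 1) by omega,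
        show ¬ (3 = 2) by omega]
      omega
    · obtain ⟨g1, g2, g3⟩ := h
      have hmv : Mn v.1 := by unfold Mn; omega
      rw [hL u v huv]
      have hb1 := hcenr v.1
      have hb2 := hradr v.1
      have h4 : (0 : ℝ) ≤ cen f F C v.1 := Nat.cast_nonneg _
      have h6 : (0 : ℝ) ≤ rad f F C v.1 := Nat.cast_nonneg _
      unfold Mn at hmv
      simp only [pendL, attL, hmv, if_false, g1, g2, and_self, if_true]
      unfold bd
      have hj : u.1.2 = 2 ∨ u.1.2 = 3 ∨ u.1.2 = 4 ∨ u.1.2 = 5 := by omega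
      rcases hj with hj | hj | hj | hj <;> simp only [hj] <;> simp <;>
        constructor <;> linarith
    · obtain ⟨g1, g2⟩ := h
      rw [hL u v huv, g1, g2]
      simp [pendL, attL, bd]
      constructor <;> linarith
    · obtain ⟨g1, g2⟩ := h
      rw [hL u v huv, g1, g2]
      simp [pendL, attL, bd]
      constructor <;> linarith
  have hSd : ∀ u v : {x // x ∈ vsP N C.length}, u ≠ v → adjS C u.1 v.1 = true →
      ¬ (20 * (F : ℝ) ≤ L.dist u v ∧ L.dist u v ≤ 44 * F) := by
    intro u v huv h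
    simp only [adjS, Bool.or_eq_true, Bool.and_eq_true, decide_eq_true_eq] at h
    rcases h with ((((((h | h) | h) | h) | h) | h) | h) | h
    · obtain ⟨g1, g2 | g2, g3⟩ := h
      · have hb := hf v.1.2
        apply near u v huv (by unfold Mn; omega) (by unfold Mn; omega)
        simp only [cen, rad, g1, g2, g3]
        simp
        omega
      · have hb := hf v.1.2
        apply near u v huv (by unfold Mn; omega) (by unfold Mn; omega)
        simp only [cen, rad, g1, g2, g3]
        simp
        omega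
    · obtain ⟨g1, g2⟩ := h
      have hb := hf v.1.2
      apply near u v huv (by simp [Mn, g1]) (by unfold Mn; omega)
      simp only [cen, rad, g1, g2]
      simp
    · obtain ⟨g1, g2⟩ := h
      have hb := hf v.1.2
      apply near u v huv (by simp [Mn, g1]) (by unfold Mn; omega)
      simp only [cen, rad, g1, g2]
      simp
      omega
    · obtain ⟨g1, g2 | g2⟩ := h
      · apply near u v huv (by unfold Mn; omega) (by simp [Mn, g2])
        simp only [cen, rad, g1, g2]
        simp
        omega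
      · apply near u v huv (by unfold Mn; omega) (by simp [Mn, g2])
        simp only [cen, rad, g1, g2]
        simp
        omega
    · obtain ⟨g1, g2⟩ := h
      rw [hL u v huv, g1, g2]
      simp [pendL, attL, bd]
      intro h
      linarith
    · obtain ⟨g1, g2⟩ := h
      rw [hL u v huv, g1, g2]
      simp [pendL, attL, bd]
      intro h
      linarith
    · obtain ⟨g1, g2⟩ := h
      rw [hL u v huv, g1, g2]
      simp [pendL, attL, bd]
      intro h
      linarith
    · obtain ⟨g1, g2⟩ := h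
      rw [hL u v huv, g1, g2]
      simp [pendL, attL, bd]
      intro h
      linarith
  refine ⟨L, 20 * F, 44 * F, by positivity, by linarith, ?_, ?_⟩
  · rintro u v ⟨huv, h | h⟩
    · exact ⟨huv, hEd u v huv h⟩
    · exact ⟨huv, by rw [L.dist_comm u v]; exact hEd v u huv.symm h⟩
  · rintro u v ⟨huv, h | h⟩ h'
    · exact hSd u v huv h h'.2
    · exact hSd v u huv.symm h (by rw [L.dist_comm v u]; exact h'.2)

end

/-- Correctness of the reduction. -/
theorem redP_correct (φ : List Cl) : NAE φ ↔ GenPCGRecognition (redP φ) := by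
  unfold redP vsφ
  rw [genPCG_mat _ _ _ (nodup_vsP _ _)]
  constructor
  · intro h
    obtain ⟨f, h1, h2, h3⟩ := lin_of_nae h
    exact complete h1 h2 h3
  · intro h
    obtain ⟨t, ht⟩ := sound (conOk_allCon φ) h
    exact nae_of_lin ht

/-- **Generalized PCG recognition is NP-hard.** -/
theorem hardI_GenPCG : HardI GenPCGRecognition := hardI_NAE.trans redP_poly redP_correct

end Pool.Agent.Y541.PCG
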