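import Mathlib
import Pool.Agent.H622R2.MatGraph

/-!
# Pairwise compatibility graphs: definitions

A weighted tree with leaf set `V`, the distances between its leaves, the graph
`PCG(T, dmin, dmax)`, and the decision problem of generalized PCG recognition.
-/

set_option autoImplicit false

namespace Pool.Agent.Y541.PCG

open Pool.Agent.H622R2

/-- A finite tree whose edges carry positive real weights and whose leaves (vertices with exactly
one neighbour) are identified with the elements of `V`. -/
structure LeafTree (V : Type) where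
  /-- the vertices of the tree -/
  W : Type
  finite : Finite W
  /-- the tree -/
  T : SimpleGraph W
  isTree : T.IsTree
  /-- the weights of the edges -/
  w : Sym2 W → ℝ
  w_pos : ∀ e ∈ T.edgeSet, 0 < w e
  /-- the leaf which is identified with an element of `V` -/
  leaf : V → W
  leaf_inj : Function.Injective leaf
  leaf_iff : ∀ x : W, (∃ v, leaf v = x) ↔ (T.neighborSet x).ncard = 1

/-- The unique path between two vertices of the tree. -/
noncomputable def LeafTree.path {V : Type} (L : LeafTree V) (x y : L.W) : L.T.Walk x y :=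
  (L.isTree.existsUnique_path x y).choose

/-- The distance of two leaves: the sum of the weights on the path between them. -/
noncomputable def LeafTree.dist {V : Type} (L : LeafTree V) (u v : V) : ℝ :=
  ((L.path (L.leaf u) (L.leaf v)).edges.map L.w).sum

theorem LeafTree.path_isPath {V : Type} (L : LeafTree V) (x y : L.W) : (L.path x y).IsPath :=
  (L.isTree.existsUnique_path x y).choose_spec.1

theorem LeafTree.path_eq {V : Type} (L : LeafTree V) {x y : L.W} {p : L.T.Walk x y}
    (hp : p.IsPath) : L.path x y = p :=
  ((L.isTree.existsUnique_path x y).choose_spec.2 p hp).symm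

theorem LeafTree.path_reverse {V : Type} (L : LeafTree V) (x y : L.W) :
    L.path y x = (L.path x y).reverse :=
  L.path_eq (L.path_isPath x y).reverse

theorem LeafTree.dist_comm {V : Type} (L : LeafTree V) (u v : V) : L.dist u v = L.dist v u := by
  unfold LeafTree.dist
  rw [L.path_reverse (L.leaf v) (L.leaf u), SimpleGraph.Walk.edges_reverse, List.map_reverse,
    List.sum_reverse]

/-- The graph `PCG(T, dmin, dmax)`: two distinct leaves are adjacent if and only if their distance
is at least `dmin` and at most `dmax`. -/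
def pcg {V : Type} (L : LeafTree V) (dmin dmax : ℝ) : SimpleGraph V where
  Adj u v := u ≠ v ∧ dmin ≤ L.dist u v ∧ L.dist u v ≤ dmax
  symm := ⟨fun u v h => ⟨h.1.symm, by rw [L.dist_comm v u]; exact h.2⟩⟩
  loopless := ⟨fun _ h => h.1 rfl⟩

/-- Some graph `PCG(T, dmin, dmax)` with leaf set `V` contains every edge of `G` and no pair of
`S`. -/
def GenPCG {V : Type} (G S : SimpleGraph V) : Prop :=
  ∃ (L : LeafTree V) (dmin dmax : ℝ), 0 ≤ dmin ∧ dmin ≤ dmax ∧
    (∀ u v, G.Adj u v → (pcg L dmin dmax).Adj u v) ∧
    ∀ u v, S.Adj u v → ¬ (pcg L dmin dmax).Adj u v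

/-- The graph with vertices `0, ..., n - 1` in which two distinct vertices `i`, `j` are adjacent
when the entry `(i, j)` or the entry `(j, i)` of the matrix `M` is `true`. -/
def graphOn (n : ℕ) (M : List (List Bool)) : SimpleGraph (Fin n) where
  Adj i j := i ≠ j ∧ (entry M i j = true ∨ entry M j i = true)
  symm := ⟨fun _ _ h => ⟨h.1.symm, h.2.symm⟩⟩
  loopless := ⟨fun _ h => h.1 rfl⟩

/-- Generalized PCG recognition.  The input consists of the adjacency matrix `x.1` of a graph `G`
with vertices `0, ..., n - 1` (`n` is the number of rows) and the matrix `x.2` of a set `S` of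
pairs of vertices.  (If some pair of `S` is an edge of `G` then the answer is no.) -/
def GenPCGRecognition (x : List (List Bool) × List (List Bool)) : Prop :=
  GenPCG (graphOn x.1.length x.1) (graphOn x.1.length x.2)

theorem GenPCG.of_equiv {V V' : Type} (e : V ≃ V') {G S : SimpleGraph V} {G' S' : SimpleGraph V'}
    (hG : ∀ u v, G.Adj u v ↔ G'.Adj (e u) (e v)) (hS : ∀ u v, S.Adj u v ↔ S'.Adj (e u) (e v))
    (h : GenPCG G' S') : GenPCG G S := by
  obtain ⟨L, dmin, dmax, h0, h1, h2, h3⟩ := h
  refine ⟨⟨L.W, L.finite, L.T, L.isTree, L.w, L.w_pos, fun v => L.leaf (e v),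
    fun u v huv => e.injective (L.leaf_inj huv), fun x => ?_⟩, dmin, dmax, h0, h1, ?_, ?_⟩
  · rw [← L.leaf_iff x]
    constructor
    · rintro ⟨v, hv⟩
      exact ⟨e v, hv⟩
    · rintro ⟨v, hv⟩
      exact ⟨e.symm v, by simp [hv]⟩
  · intro u v huv
    have h := h2 _ _ ((hG u v).1 huv)
    exact ⟨fun h' => h.1 (by rw [h']), h.2⟩
  · intro u v huv h
    refine h3 _ _ ((hS u v).1 huv) ⟨fun h' => h.1 (e.injective h'), h.2⟩

theorem genPCG_mat {α : Type} [DecidableEq α] (vs : List α) (adj sadj : α → α → Bool)
    (hnd : vs.Nodup) : GenPCGRecognition (mat vs adj, mat vs sadj) ↔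
      GenPCG (labGraph vs adj) (labGraph vs sadj) := by
  have key : ∀ f : α → α → Bool, ∀ u v : Fin (mat vs adj).length,
      (graphOn (mat vs adj).length (mat vs f)).Adj u v ↔ (labGraph vs f).Adj
        (((finCongr (mat_length vs adj)).trans (List.Nodup.getEquiv vs hnd)) u)
        (((finCongr (mat_length vs adj)).trans (List.Nodup.getEquiv vs hnd)) v) := by
    intro f a b
    simp only [labGraph, graphOn, Equiv.trans_apply, List.Nodup.getEquiv, Equiv.coe_fn_mk,
      finCongr_apply]
    have ha : a.1 < vs.length := lt_of_lt_of_eq a.2 (mat_length vs adj)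
    have hb : b.1 < vs.length := lt_of_lt_of_eq b.2 (mat_length vs adj)
    rw [entry_mat _ _ _ _ ha hb, entry_mat _ _ _ _ hb ha]
    have h1 : (⟨vs.get (Fin.cast (mat_length vs adj) a), List.get_mem _ _⟩ : {x // x ∈ vs}) ≠
        ⟨vs.get (Fin.cast (mat_length vs adj) b), List.get_mem _ _⟩ ↔ a ≠ b := by
      rw [not_iff_not, Subtype.mk.injEq, hnd.injective_get.eq_iff]
      simp [Fin.ext_iff]
    constructor
    · rintro ⟨h, h'⟩
      exact ⟨h1.2 h, h'⟩
    · rintro ⟨h, h'⟩
      exact ⟨h1.1 h, h'⟩
  constructor
  · intro h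
    refine GenPCG.of_equiv
      ((finCongr (mat_length vs adj)).trans (List.Nodup.getEquiv vs hnd)).symm ?_ ?_ h
    · intro u v
      rw [key adj]
      simp
    · intro u v
      rw [key sadj]
      simp
  · intro h
    exact GenPCG.of_equiv ((finCongr (mat_length vs adj)).trans (List.Nodup.getEquiv vs hnd))
      (key adj) (key sadj) h

end Pool.Agent.Y541.PCG
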