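import Pool.Agent.Y541.PCG.Defs

/-!
# The four point condition for the distances of the leaves of a weighted tree
-/

set_option autoImplicit false

namespace Pool.Agent.Y541.PCG

open SimpleGraph

variable {V : Type} (L : LeafTree V)

/-- the edge `e` is on the path from `x` to `y` -/
def On (e : Sym2 L.W) (x y : L.W) : Prop := e ∈ (L.path x y).edges

theorem on_comm (e : Sym2 L.W) (x y : L.W) : On L e x y ↔ On L e y x := by
  unfold On
  rw [L.path_reverse x y, Walk.edges_reverse, List.mem_reverse]

theorem not_on_self (e : Sym2 L.W) (x : L.W) : ¬ On L e x x := by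
  unfold On
  rw [L.path_eq (p := Walk.nil) Walk.IsPath.nil]
  simp

theorem not_on_trans {e : Sym2 L.W} {x y z : L.W} (h1 : ¬ On L e x y) (h2 : ¬ On L e y z) :
    ¬ On L e x z := by
  classical
  unfold On at *
  rw [L.path_eq (Walk.bypass_isPath ((L.path x y).append (L.path y z)))]
  intro h
  have := Walk.edges_bypass_subset_edges _ h
  rw [Walk.edges_append, List.mem_append] at this
  exact this.elim h1 h2

theorem not_on_support {e : Sym2 L.W} {x y z : L.W} (h1 : ¬ On L e x y)
    (h2 : z ∈ (L.path x y).support) : ¬ On L e x z := by
  classical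
  unfold On at *
  rw [L.path_eq ((L.path_isPath x y).takeUntil h2)]
  exact fun h => h1 (Walk.edges_takeUntil_subset_edges _ h2 h)

theorem side {a b : L.W} (hab : a ≠ b) (x : L.W) (h : On L s(a, b) x a) :
    ¬ On L s(a, b) x b := by
  classical
  have hb : b ∈ (L.path x a).support := Walk.snd_mem_support_of_mem_edges _ h
  have hn := Walk.endpoint_notMem_support_takeUntil (L.path_isPath x a) hb hab
  unfold On
  rw [L.path_eq ((L.path_isPath x a).takeUntil hb)]
  intro h'
  exact hn (Walk.fst_mem_support_of_mem_edges _ h')

/-- An edge divides the vertices into two classes. -/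
theorem exists_class (e : Sym2 L.W) : ∃ c : L.W → Bool, ∀ x y, On L e x y ↔ c x ≠ c y := by
  classical
  induction e using Sym2.ind with
  | _ a b =>
    by_cases hab : L.T.Adj a b
    · refine ⟨fun x => decide (On L s(a, b) x a), fun x y => ?_⟩
      by_cases hx : On L s(a, b) x a <;> by_cases hy : On L s(a, b) y a
      · simp only [hx, hy, decide_true, ne_eq, not_true_eq_false, iff_false]
        have h1 := side L hab.ne x hx
        have h2 := side L hab.ne y hy
        rw [on_comm] at h2
        exact not_on_trans L h1 h2
      · simp only [hx, hy, decide_true, decide_false, ne_eq, reduceCtorEq, not_false_eq_true,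
          iff_true]
        by_contra h
        exact (not_on_trans L h hy) hx
      · simp only [hx, hy, decide_true, decide_false, ne_eq, reduceCtorEq, not_false_eq_true,
          iff_true]
        by_contra h
        rw [on_comm] at h
        exact (not_on_trans L h hx) hy
      · simp only [hx, hy, decide_false, ne_eq, not_true_eq_false, iff_false]
        rw [on_comm] at hy
        exact not_on_trans L hx hy
    · refine ⟨fun _ => true, fun x y => ?_⟩
      simp only [ne_eq, not_true_eq_false, iff_false]
      intro h
      exact hab (Walk.adj_of_mem_edges _ h)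

/-- The edges of type `ab | cd` and `ac | bd` cannot both exist. -/
theorem compatible {e f : Sym2 L.W} {a b c d : L.W} (h1 : ¬ On L e a b) (h2 : ¬ On L e c d)
    (h3 : On L e a c) (h4 : On L f a b) (h5 : On L f c d) : False := by
  induction f using Sym2.ind with
  | _ p q =>
    have hp1 : p ∈ (L.path a b).support := Walk.fst_mem_support_of_mem_edges _ h4
    have hp2 : p ∈ (L.path c d).support := Walk.fst_mem_support_of_mem_edges _ h5
    have k1 := not_on_support L h1 hp1
    have k2 := not_on_support L h2 hp2
    rw [on_comm] at k2
    exact not_on_trans L k1 k2 h3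

open Classical in
theorem sum_edges {x y : L.W} [Fintype L.W] :
    ((L.path x y).edges.map L.w).sum = ∑ e : Sym2 L.W, if On L e x y then L.w e else 0 := by
  rw [← Finset.sum_filter]
  have h : (Finset.univ.filter fun e : Sym2 L.W => On L e x y) = (L.path x y).edges.toFinset := by
    ext e
    simp [On]
  rw [h, List.sum_toFinset _ (L.path_isPath x y).isTrail.edges_nodup]

/-- **The four point condition.** -/
theorem four_point (a b c d : V) : L.dist a b + L.dist c d ≤
    max (L.dist a c + L.dist b d) (L.dist a d + L.dist b c) := by
  classical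
  have := L.finite
  have := Fintype.ofFinite L.W
  unfold LeafTree.dist
  simp only [sum_edges, ← Finset.sum_add_distrib]
  set A := L.leaf a
  set B := L.leaf b
  set C := L.leaf c
  set D := L.leaf d
  have hpos : ∀ (e : Sym2 L.W) (x y : L.W), On L e x y → 0 ≤ L.w e := by
    intro e x y h
    exact (L.w_pos e ((L.path x y).edges_subset_edgeSet h)).le
  by_cases h : ∃ e, ¬ On L e A C ∧ ¬ On L e B D ∧ On L e A B
  · obtain ⟨e₀, h1, h2, h3⟩ := h
    refine le_max_of_le_right (Finset.sum_le_sum fun e _ => ?_)
    obtain ⟨k, hk⟩ := exists_class L e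
    have hno : ¬ (¬ On L e A D ∧ ¬ On L e B C ∧ On L e A B) := by
      rintro ⟨g1, g2, g3⟩
      have g4 : On L e A C := by
        rw [hk] at g1 g2 g3 ⊢
        revert g1 g2 g3
        cases k A <;> cases k B <;> cases k C <;> cases k D <;> simp
      have g5 : On L e B D := by
        rw [hk] at g1 g2 g3 ⊢
        revert g1 g2 g3
        cases k A <;> cases k B <;> cases k C <;> cases k D <;> simp
      exact compatible L h1 h2 h3 g4 g5
    have hp : k A ≠ k B ∨ k A ≠ k C ∨ k C ≠ k D → 0 ≤ L.w e := by
      rintro (h | h | h)
      · exact hpos e A B ((hk _ _).2 h)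
      · exact hpos e A C ((hk _ _).2 h)
      · exact hpos e C D ((hk _ _).2 h)
    simp only [hk] at hno ⊢
    revert hno hp
    cases k A <;> cases k B <;> cases k C <;> cases k D <;> simp
  · push Not at h
    refine le_max_of_le_left (Finset.sum_le_sum fun e _ => ?_)
    obtain ⟨k, hk⟩ := exists_class L e
    have hno := h e
    have hp : k A ≠ k B ∨ k A ≠ k C ∨ k C ≠ k D → 0 ≤ L.w e := by
      rintro (h | h | h)
      · exact hpos e A B ((hk _ _).2 h)
      · exact hpos e A C ((hk _ _).2 h)
      · exact hpos e C D ((hk _ _).2 h)
    simp only [hk] at hno ⊢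
    revert hno hp
    cases k A <;> cases k B <;> cases k C <;> cases k D <;> simp

end Pool.Agent.Y541.PCG
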