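import Pool.Agent.Y541.PCG.Red

/-!
# Order constraints and monotone not-all-equal satisfiability
-/

set_option autoImplicit false

namespace Pool.Agent.Y541.PCG

open Pool.Agent.NPC Pool.Agent.H622R2
open Pool.Agent.NPC.WC648 (NV NAE)

theorem mem_occ {φ : List Cl} {p : NV × ℕ} : p ∈ occ φ ↔ ∃ i, ∃ h : i < φ.length,
    p = (φ[i].1, 4 * i + 1) ∨ p = (φ[i].2.1, 4 * i + 3) ∨ p = (φ[i].2.2, 4 * i + 4) := by
  unfold occ
  rw [List.mem_flatMap]
  constructor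
  · rintro ⟨⟨c, i⟩, hc, hp⟩
    rw [List.mem_zipIdx_iff_getElem?] at hc
    obtain ⟨hi, hc⟩ := List.getElem?_eq_some_iff.1 hc
    simp only at hi hc
    subst hc
    refine ⟨i, hi, ?_⟩
    simpa using hp
  · rintro ⟨i, hi, hp⟩
    refine ⟨(φ[i], i), ?_, ?_⟩
    · rw [List.mem_zipIdx_iff_getElem?]
      simp
    · simpa using hp

theorem mem_sameCon {φ : List Cl} {c : Con} : c ∈ sameCon φ ↔
    ∃ p ∈ occ φ, ∃ q ∈ occ φ, q.1 = p.1 ∧ c = (p.2, q.2, 0) := by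
  unfold sameCon
  simp only [List.mem_flatMap, List.mem_map, List.mem_filter, decide_eq_true_eq]
  constructor
  · rintro ⟨p, hp, q, ⟨hq, h⟩, rfl⟩
    exact ⟨p, hp, q, hq, h, rfl⟩
  · rintro ⟨p, hp, q, hq, h, rfl⟩
    exact ⟨p, hp, q, ⟨hq, h⟩, rfl⟩

theorem occ_lt {φ : List Cl} {p : NV × ℕ} (hp : p ∈ occ φ) :
    0 < p.2 ∧ p.2 < 1 + 4 * φ.length := by
  obtain ⟨i, hi, rfl | rfl | rfl⟩ := mem_occ.1 hp
  · exact ⟨by simp, by simp only; omega⟩
  · exact ⟨by simp, by simp only; omega⟩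
  · exact ⟨by simp, by simp only; omega⟩

theorem mem_allCon {φ : List Cl} {c : Con} : c ∈ allCon φ ↔
    (∃ i < φ.length, c = (4 * i + 1, 4 * i + 2, 4 * i + 3) ∨
      c = (4 * i + 3, 4 * i + 2, 4 * i + 1) ∨ c = (0, 4 * i + 2, 4 * i + 4) ∨
      c = (0, 4 * i + 4, 4 * i + 2)) ∨
    ∃ p ∈ occ φ, ∃ q ∈ occ φ, q.1 = p.1 ∧ c = (p.2, q.2, 0) := by
  unfold allCon
  rw [List.mem_append, mem_sameCon, List.mem_flatMap]
  simp only [List.mem_range, clCon, List.mem_cons, List.not_mem_nil, or_false]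

theorem conOk_allCon (φ : List Cl) : ConOk (1 + 4 * φ.length) (allCon φ) := by
  intro c hc
  rcases mem_allCon.1 hc with ⟨i, hi, rfl | rfl | rfl | rfl⟩ | ⟨p, hp, q, hq, _, rfl⟩
  · simp only; omega
  · simp only; omega
  · simp only; omega
  · simp only; omega
  · have h1 := occ_lt hp
    have h2 := occ_lt hq
    simp only
    omega

theorem five_left {t0 a y b c : ℝ} (hab : a ≠ b) (hay : a ≠ y) (hby : b ≠ y) (hcy : c ≠ y)
    (h1 : ¬ (a < b ∧ b < y)) (h2 : ¬ (y < b ∧ b < a)) (h3 : ¬ (b < a ∧ a < y))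
    (h4 : ¬ (y < a ∧ a < b)) (h6 : ¬ (y < c ∧ c < t0))
    (h8 : ¬ (c < y ∧ y < t0)) (ha : a < t0) (hb : b < t0) (hc : c < t0) : False := by
  have hy : y < t0 := by
    rcases lt_or_gt_of_ne hay with k | k
    · rcases lt_or_gt_of_ne hby with k' | k'
      · rcases lt_or_gt_of_ne hab with k2 | k2
        · exact absurd ⟨k2, k'⟩ h1
        · exact absurd ⟨k2, k⟩ h3
      · exact k'.trans hb
    · exact k.trans ha
  rcases lt_or_gt_of_ne hcy with k | k
  · exact h8 ⟨k, hy⟩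
  · exact h6 ⟨k, hc⟩

theorem nae_of_lin {φ : List Cl} {t : ℕ → ℝ} (h : Lin (1 + 4 * φ.length) (allCon φ) t) :
    NAE φ := by
  classical
  obtain ⟨hne, hcon⟩ := h
  have hside : ∀ p ∈ occ φ, ∀ q ∈ occ φ, q.1 = p.1 → t p.2 < t 0 → t q.2 < t 0 := by
    intro p hp q hq hpq hlt
    have h1 := (hcon _ (mem_allCon.2 (Or.inr ⟨p, hp, q, hq, hpq, rfl⟩))).1
    have h2 := hne q.2 0 (occ_lt hq).2 (by omega) (occ_lt hq).1.ne'
    simp only at h1
    rcases lt_or_gt_of_ne h2 with h2 | h2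
    · exact h2
    · exact absurd ⟨hlt, h2⟩ h1
  let τ : NV → Bool := fun v => decide (∃ q ∈ occ φ, q.1 = v ∧ t q.2 < t 0)
  have hτ : ∀ p ∈ occ φ, (τ p.1 = true ↔ t p.2 < t 0) := by
    intro p hp
    simp only [τ, decide_eq_true_eq]
    constructor
    · rintro ⟨q, hq, hqp, hlt⟩
      exact hside q hq p hp hqp.symm hlt
    · intro hlt
      exact ⟨p, hp, rfl, hlt⟩
  refine ⟨τ, fun c hc => ?_⟩
  obtain ⟨i, hi, rfl⟩ := List.getElem_of_mem hc
  rintro ⟨e1, e2⟩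
  have o1 := mem_occ.2 ⟨i, hi, Or.inl rfl⟩
  have o2 := mem_occ.2 ⟨i, hi, Or.inr (Or.inl rfl)⟩
  have o3 := mem_occ.2 ⟨i, hi, Or.inr (Or.inr rfl)⟩
  have t1 := hτ _ o1
  have t2 := hτ _ o2
  have t3 := hτ _ o3
  simp only at t1 t2 t3
  have c1 := hcon _ (mem_allCon.2 (Or.inl ⟨i, hi, Or.inl rfl⟩))
  have c2 := hcon _ (mem_allCon.2 (Or.inl ⟨i, hi, Or.inr (Or.inl rfl)⟩))
  have c3 := hcon _ (mem_allCon.2 (Or.inl ⟨i, hi, Or.inr (Or.inr (Or.inl rfl))⟩))
  have c4 := hcon _ (mem_allCon.2 (Or.inl ⟨i, hi, Or.inr (Or.inr (Or.inr rfl))⟩))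
  simp only at c1 c2 c3 c4
  have n1 := hne (4 * i + 1) (4 * i + 3) (by omega) (by omega) (by omega)
  have n2 := hne (4 * i + 1) (4 * i + 2) (by omega) (by omega) (by omega)
  have n3 := hne (4 * i + 3) (4 * i + 2) (by omega) (by omega) (by omega)
  have n4 := hne (4 * i + 4) (4 * i + 2) (by omega) (by omega) (by omega)
  have z1 := hne (4 * i + 1) 0 (by omega) (by omega) (by omega)
  have z2 := hne (4 * i + 3) 0 (by omega) (by omega) (by omega)
  have z3 := hne (4 * i + 4) 0 (by omega) (by omega) (by omega)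
  by_cases hv : τ φ[i].1 = true
  · have k1 := t1.1 hv
    have k2 := t2.1 (e1 ▸ hv)
    have k3 := t3.1 (e2 ▸ e1 ▸ hv)
    exact five_left n1 n2 n3 n4 c1.1 c1.2 c2.1 c2.2 c3.2 c4.2 k1 k2 k3
  · have k1 := (lt_or_gt_of_ne z1).resolve_left fun h => hv (t1.2 h)
    have k2 := (lt_or_gt_of_ne z2).resolve_left fun h => hv (e1 ▸ t2.2 h)
    have k3 := (lt_or_gt_of_ne z3).resolve_left fun h => hv (e1 ▸ e2 ▸ t3.2 h)
    refine five_left (t0 := -t 0) (a := -t (4 * i + 1)) (y := -t (4 * i + 2))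
      (b := -t (4 * i + 3)) (c := -t (4 * i + 4)) ?_ ?_ ?_ ?_ ?_ ?_ ?_ ?_ ?_ ?_ ?_ ?_ ?_
    · simpa using n1
    · simpa using n2
    · simpa using n3
    · simpa using n4
    · rintro ⟨g1, g2⟩
      exact c1.2 ⟨by linarith, by linarith⟩
    · rintro ⟨g1, g2⟩
      exact c1.1 ⟨by linarith, by linarith⟩
    · rintro ⟨g1, g2⟩
      exact c2.2 ⟨by linarith, by linarith⟩
    · rintro ⟨g1, g2⟩
      exact c2.1 ⟨by linarith, by linarith⟩
    · rintro ⟨g1, g2⟩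
      exact c3.1 ⟨by linarith, by linarith⟩
    · rintro ⟨g1, g2⟩
      exact c4.1 ⟨by linarith, by linarith⟩
    · linarith
    · linarith
    · linarith

/-- side and distance from the middle -/
def pm (φ : List Cl) (τ : NV → Bool) (x : ℕ) : Bool × ℕ :=
  let c := φ.getD ((x - 1) / 4) ((0, 0, false), (0, 0, false), (0, 0, false))
  if x = 0 then (false, 0) else
  if (x - 1) % 4 = 0 then (τ c.1, 4 * φ.length + 1 + x) else
  if (x - 1) % 4 = 1 then (!τ c.2.2, if τ c.1 = τ c.2.1 then 4 * φ.length + 1 + x else x) else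
  if (x - 1) % 4 = 2 then (τ c.2.1, 4 * φ.length + 1 + x) else
  (τ c.2.2, 4 * φ.length + 1 + x)

/-- position -/
def pos (φ : List Cl) (τ : NV → Bool) (x : ℕ) : ℕ :=
  if x < 1 + 4 * φ.length then
    (if (pm φ τ x).1 = true then 8 * φ.length + 3 - (pm φ τ x).2
      else 8 * φ.length + 3 + (pm φ τ x).2)
  else 8 * φ.length + 3

theorem pm_bounds (φ : List Cl) (τ : NV → Bool) {x : ℕ} (hx : x < 1 + 4 * φ.length) :
    (x = 0 ∧ (pm φ τ x).2 = 0) ∨
      (0 < x ∧ ((pm φ τ x).2 = 4 * φ.length + 1 + x ∨ (pm φ τ x).2 = x)) := by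
  unfold pm
  by_cases h0 : x = 0
  · left
    simp [h0]
  · right
    refine ⟨by omega, ?_⟩
    simp only [h0, if_false]
    split_ifs <;> simp

theorem pos_bounds (φ : List Cl) (τ : NV → Bool) (x : ℕ) :
    1 ≤ pos φ τ x ∧ pos φ τ x < 16 * φ.length + 6 := by
  unfold pos
  by_cases hx : x < 1 + 4 * φ.length
  · have := pm_bounds φ τ hx
    rw [if_pos hx]
    split_ifs <;> omega
  · rw [if_neg hx]
    omega

theorem pos_inj (φ : List Cl) (τ : NV → Bool) {x y : ℕ} (hx : x < 1 + 4 * φ.length)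
    (hy : y < 1 + 4 * φ.length) (hxy : x ≠ y) : pos φ τ x ≠ pos φ τ y := by
  have h1 := pm_bounds φ τ hx
  have h2 := pm_bounds φ τ hy
  unfold pos
  rw [if_pos hx, if_pos hy]
  split_ifs <;> omega

theorem pos_zero (φ : List Cl) (τ : NV → Bool) : pos φ τ 0 = 8 * φ.length + 3 := by
  simp [pos, pm]

theorem pos_clause (φ : List Cl) (τ : NV → Bool) {i : ℕ} (hi : i < φ.length) :
    pos φ τ (4 * i + 1) = (if τ φ[i].1 = true then 8 * φ.length + 3 - (4 * φ.length + 1 +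
      (4 * i + 1)) else 8 * φ.length + 3 + (4 * φ.length + 1 + (4 * i + 1))) ∧
    pos φ τ (4 * i + 3) = (if τ φ[i].2.1 = true then 8 * φ.length + 3 - (4 * φ.length + 1 +
      (4 * i + 3)) else 8 * φ.length + 3 + (4 * φ.length + 1 + (4 * i + 3))) ∧
    pos φ τ (4 * i + 4) = (if τ φ[i].2.2 = true then 8 * φ.length + 3 - (4 * φ.length + 1 +
      (4 * i + 4)) else 8 * φ.length + 3 + (4 * φ.length + 1 + (4 * i + 4))) ∧
    pos φ τ (4 * i + 2) = (if τ φ[i].2.2 = true then 8 * φ.length + 3 +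
      (if τ φ[i].1 = τ φ[i].2.1 then 4 * φ.length + 1 + (4 * i + 2) else 4 * i + 2)
      else 8 * φ.length + 3 -
      (if τ φ[i].1 = τ φ[i].2.1 then 4 * φ.length + 1 + (4 * i + 2) else 4 * i + 2)) := by
  have g : ∀ x, (x - 1) / 4 = i → φ.getD ((x - 1) / 4)
      ((0, 0, false), (0, 0, false), (0, 0, false)) = φ[i] := by
    intro x hx
    rw [hx, List.getD_eq_getElem?_getD, List.getElem?_eq_getElem hi]
    rfl
  refine ⟨?_, ?_, ?_, ?_⟩
  · unfold pos pm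
    rw [if_pos (by omega)]
    simp only [g (4 * i + 1) (by omega)]
    simp only [show ¬ (4 * i + 1 = 0) by omega, show (4 * i + 1 - 1) % 4 = 0 by omega, if_false,
      if_true]
  · unfold pos pm
    rw [if_pos (by omega)]
    simp only [g (4 * i + 3) (by omega)]
    simp only [show ¬ (4 * i + 3 = 0) by omega, show (4 * i + 3 - 1) % 4 = 2 by omega, if_false,
      if_true, show ¬ (2 = 0) by omega, show ¬ (2 = 1) by omega]
  · unfold pos pm
    rw [if_pos (by omega)]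
    simp only [g (4 * i + 4) (by omega)]
    simp only [show ¬ (4 * i + 4 = 0) by omega, show (4 * i + 4 - 1) % 4 = 3 by omega, if_false,
      if_true, show ¬ (3 = 0) by omega, show ¬ (3 = 1) by omega, show ¬ (3 = 2) by omega]
  · unfold pos pm
    rw [if_pos (by omega)]
    simp only [g (4 * i + 2) (by omega)]
    simp only [show ¬ (4 * i + 2 = 0) by omega, show (4 * i + 2 - 1) % 4 = 1 by omega, if_false,
      if_true, show ¬ (1 = 0) by omega]
    cases τ φ[i].2.2 <;> simp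

theorem pos_occ (φ : List Cl) (τ : NV → Bool) {p : NV × ℕ} (hp : p ∈ occ φ) :
    (τ p.1 = true ∧ pos φ τ p.2 < 8 * φ.length + 3) ∨
      (τ p.1 = false ∧ 8 * φ.length + 3 < pos φ τ p.2) := by
  obtain ⟨i, hi, h⟩ := mem_occ.1 hp
  obtain ⟨h1, h2, h3, -⟩ := pos_clause φ τ hi
  rcases h with rfl | rfl | rfl
  · simp only [h1]
    cases τ φ[i].1 <;> simp
  · simp only [h2]
    cases τ φ[i].2.1 <;> simp
  · simp only [h3]
    cases τ φ[i].2.2 <;> simp

theorem lin_of_nae {φ : List Cl} (h : NAE φ) : ∃ f : ℕ → ℕ,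
    (∀ x, 1 ≤ f x ∧ f x < 16 * φ.length + 6) ∧
    (∀ x y, x < 1 + 4 * φ.length → y < 1 + 4 * φ.length → x ≠ y → f x ≠ f y) ∧
    ∀ c ∈ allCon φ, (f c.2.2 < f c.1 ∧ f c.2.2 < f c.2.1) ∨
      (f c.1 < f c.2.2 ∧ f c.2.1 < f c.2.2) := by
  obtain ⟨τ, hτ⟩ := h
  refine ⟨pos φ τ, pos_bounds φ τ, fun x y hx hy hxy => pos_inj φ τ hx hy hxy, ?_⟩
  intro c hc
  rcases mem_allCon.1 hc with ⟨i, hi, hc⟩ | ⟨p, hp, q, hq, hpq, rfl⟩
  · obtain ⟨h1, h2, h3, h4⟩ := pos_clause φ τ hi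
    have h0 := pos_zero φ τ
    have hn := hτ _ (List.getElem_mem hi)
    rcases hc with rfl | rfl | rfl | rfl
    all_goals
      simp only [h0, h1, h2, h3, h4]
      revert hn
      cases τ φ[i].1 <;> cases τ φ[i].2.1 <;> cases τ φ[i].2.2 <;> simp <;> omega
  · have h0 := pos_zero φ τ
    have h1 := pos_occ φ τ hp
    have h2 := pos_occ φ τ hq
    rw [hpq] at h2
    simp only [h0]
    rcases h1 with h1 | h1 <;> rcases h2 with h2 | h2
    · right; omega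
    · rw [h1.1] at h2
      simp at h2
    · rw [h1.1] at h2
      simp at h2
    · left; omega

end Pool.Agent.Y541.PCG
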