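import Mathlib

/-!
# Projection to a path in a space with the four point condition

`d` is a symmetric function on `α` with the four point condition, `a` and `b` are two points.
`tt u` and `hh u` are the position of the projection of `u` to the path from `a` to `b`, and the
distance from `u` to this path.
-/

set_option autoImplicit false

namespace Pool.Agent.Y541.PCG

variable {α : Type} (d : α → α → ℝ) (a b : α)

/-- position of the projection -/
noncomputable def tt (u : α) : ℝ := (d a u + d a b - d b u) / 2

/-- distance to the path -/
noncomputable def hh (u : α) : ℝ := (d a u + d b u - d a b) / 2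

/-- The four point condition -/
structure Four : Prop where
  symm : ∀ x y, d x y = d y x
  four : ∀ x y z t, d x y + d z t ≤ max (d x z + d y t) (d x t + d y z)

variable {d}

theorem dist_a (u : α) : d a u = tt d a b u + hh d a b u := by
  unfold tt hh
  ring

theorem dist_b (u : α) : d b u = d a b - tt d a b u + hh d a b u := by
  unfold tt hh
  ring

theorem proj_lt (hd : Four d) {u v : α} (h : tt d a b u < tt d a b v) :
    d u v = tt d a b v - tt d a b u + hh d a b u + hh d a b v := by
  have h1 := hd.four a b u v
  have h2 := hd.four a v b u
  have h3 := hd.four a u b v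
  have e1 := dist_a a b (d := d) u
  have e2 := dist_b a b (d := d) u
  have e3 := dist_a a b (d := d) v
  have e4 := dist_b a b (d := d) v
  have s1 := hd.symm v b
  have s2 := hd.symm u b
  have s3 := hd.symm v u
  have s4 := hd.symm b a
  rw [s1, s3] at h2
  rw [s2] at h3
  rcases le_max_iff.1 h1 with h1 | h1 <;> rcases le_max_iff.1 h2 with h2 | h2 <;>
    rcases le_max_iff.1 h3 with h3 | h3 <;> linarith

theorem proj_le (hd : Four d) {u v : α} (h : tt d a b u ≤ tt d a b v) :
    d u v ≤ tt d a b v - tt d a b u + hh d a b u + hh d a b v := by
  rcases h.lt_or_eq with h | h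
  · exact (proj_lt a b hd h).le
  · have h1 := hd.four a b u v
    have e1 := dist_a a b (d := d) u
    have e2 := dist_b a b (d := d) u
    have e3 := dist_a a b (d := d) v
    have e4 := dist_b a b (d := d) v
    rcases le_max_iff.1 h1 with h1 | h1 <;> linarith

/-- The element `x` has distance less than `D / 2` to the path. -/
theorem hh_lt (hd : Four d) {D : ℝ} {x l r : α} (h1 : d a l < D) (h2 : d x l < D)
    (h3 : d x r < D) (h4 : d b r < D) (h5 : D ≤ d l r) (h6 : D ≤ d a r) (h7 : D ≤ d b l) :
    hh d a b x < D / 2 := by
  have e1 := dist_a a b (d := d) l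
  have e2 := dist_b a b (d := d) l
  have e3 := dist_a a b (d := d) r
  have e4 := dist_b a b (d := d) r
  have s1 := hd.symm x l
  have s2 := hd.symm x r
  have s3 := hd.symm l r
  by_contra hcon
  push Not at hcon
  rcases lt_trichotomy (tt d a b l) (tt d a b x) with hl | hl | hl
  · have k1 := proj_lt a b hd hl
    rcases lt_trichotomy (tt d a b r) (tt d a b x) with hr | hr | hr
    · have k2 := proj_lt a b hd hr
      rcases le_total (tt d a b l) (tt d a b r) with k | k
      · have := proj_le a b hd k
        linarith
      · have := proj_le a b hd k
        linarith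
    · rw [← hr] at hl
      have := proj_lt a b hd hl
      linarith
    · have k2 := proj_lt a b hd hr
      have := proj_lt a b hd (hl.trans hr)
      linarith
  · rcases lt_trichotomy (tt d a b r) (tt d a b x) with hr | hr | hr
    · have k2 := proj_lt a b hd hr
      have := proj_lt a b hd (hr.trans_eq hl.symm)
      linarith
    · linarith
    · have k2 := proj_lt a b hd hr
      have := proj_lt a b hd (hl.trans_lt hr)
      linarith
  · have k1 := proj_lt a b hd hl
    rcases lt_trichotomy (tt d a b r) (tt d a b x) with hr | hr | hr
    · have k2 := proj_lt a b hd hr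
      have := proj_lt a b hd (hr.trans hl)
      linarith
    · have := proj_lt a b hd (hr.trans_lt hl)
      linarith
    · have k2 := proj_lt a b hd hr
      rcases le_total (tt d a b l) (tt d a b r) with k | k
      · have := proj_le a b hd k
        linarith
      · have := proj_le a b hd k
        linarith

/-- Far elements near the path have different projections. -/
theorem tt_far (hd : Four d) {D : ℝ} {x y : α} (hx : hh d a b x < D / 2)
    (hy : hh d a b y < D / 2) (h : D ≤ d x y) (hle : tt d a b x ≤ tt d a b y) :
    D ≤ tt d a b y - tt d a b x + hh d a b x + hh d a b y :=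
  h.trans (proj_le a b hd hle)

/-- If `u` is close to `x` and `y` but far from `z` then `z` is not between `x` and `y`. -/
theorem not_between (hd : Four d) {D : ℝ} {x y z u : α} (hx : hh d a b x < D / 2)
    (hy : hh d a b y < D / 2) (hz : hh d a b z < D / 2) (hxz : D ≤ d x z) (hyz : D ≤ d y z)
    (hux : d u x < D) (huy : d u y < D) (huz : D ≤ d u z) :
    ¬ (tt d a b x < tt d a b z ∧ tt d a b z < tt d a b y) := by
  rintro ⟨h1, h2⟩
  have s1 := hd.symm z u
  have s2 := hd.symm x u
  have s3 := hd.symm y z
  rcases le_total (tt d a b u) (tt d a b z) with h | h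
  · have k1 := proj_le a b hd h
    have k2 := proj_lt a b hd (h.trans_lt h2)
    have k3 := proj_lt a b hd h2
    linarith
  · have k1 := proj_le a b hd h
    have k2 := proj_lt a b hd (h1.trans_le h)
    have k3 := proj_lt a b hd h1
    linarith

end Pool.Agent.Y541.PCG
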