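import Pool.Agent.Y541.PCG.Four
import Pool.Agent.Y541.PCG.Spine
import Pool.Agent.H648R3.WC.Nae
import Pool.Agent.H622R2.Base

/-!
# The reduction from monotone not-all-equal satisfiability, soundness

The elements are `0` (the middle) and `4 i + 1`, ..., `4 i + 4` for the clause number `i`; the
elements `4 i + 1`, `4 i + 3`, `4 i + 4` stand for the three variables of the clause, `4 i + 2` is
auxiliary.  An order constraint `(u, v, w)` says that `w` is not between `u` and `v`.
The vertices of the graph are `(0, x)`, `(1, x)`, `(2, x)` for the elements `x`, `(3, k)` for the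
constraints, the two ends `(4, 0)`, `(4, 1)` of the line, and four further vertices.
-/

set_option autoImplicit false

namespace Pool.Agent.Y541.PCG

open Pool.Agent.NPC Pool.Agent.H622R2
open Pool.Agent.NPC.WC648 (NV NAE)

/-- clauses -/
abbrev Cl : Type := NV × NV × NV

/-- labels of the vertices -/
abbrev Lab : Type := ℕ × ℕ

/-- order constraints -/
abbrev Con : Type := ℕ × ℕ × ℕ

/-- the constraints of the clause number `i` -/
def clCon (i : ℕ) : List Con :=
  [(4 * i + 1, 4 * i + 2, 4 * i + 3), (4 * i + 3, 4 * i + 2, 4 * i + 1),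
    (0, 4 * i + 2, 4 * i + 4), (0, 4 * i + 4, 4 * i + 2)]

/-- the occurrences of the variables -/
def occ (φ : List Cl) : List (NV × ℕ) :=
  φ.zipIdx.flatMap (fun p => [(p.1.1, 4 * p.2 + 1), (p.1.2.1, 4 * p.2 + 3),
    (p.1.2.2, 4 * p.2 + 4)])

/-- the occurrences of one variable are on the same side of the middle -/
def sameCon (φ : List Cl) : List Con :=
  (occ φ).flatMap (fun p => ((occ φ).filter (fun q => decide (q.1 = p.1))).map
    (fun q => (p.2, q.2, 0)))

/-- all constraints -/
def allCon (φ : List Cl) : List Con := (List.range φ.length).flatMap clCon ++ sameCon φ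

/-- the vertices -/
def vsP (N K : ℕ) : List Lab :=
  (List.range N).flatMap (fun x => [(0, x), (1, x), (2, x)]) ++
    ((List.range K).map (fun k => (3, k)) ++ [(4, 0), (4, 1), (4, 2), (4, 3), (4, 4), (4, 5)])

/-- the edges of the graph (in one direction) -/
def adjE (C : List Con) (u v : Lab) : Bool :=
  (decide (u.1 = 0) && decide (v.1 = 0)) ||
  (decide (u.1 = 1) && (decide (v.1 = 2) && decide (u.2 = v.2))) ||
  (decide (u = (4, 0)) && (decide (v = (4, 1)) || decide (v.1 = 2))) ||
  (decide (u = (4, 1)) && decide (v.1 = 1)) ||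
  (decide (u.1 = 3) && decide (v = (0, (C.getD u.2 (0, 0, 0)).2.2))) ||
  (decide (u.1 = 4) && (decide (2 ≤ u.2) && (decide (v.1 < 4) || decide (v.2 < 2)))) ||
  (decide (u = (4, 2)) && decide (v = (4, 4))) || (decide (u = (4, 3)) && decide (v = (4, 5)))

/-- the pairs of the set `S` (in one direction) -/
def adjS (C : List Con) (u v : Lab) : Bool :=
  (decide (u.1 = 0) && ((decide (v.1 = 1) || decide (v.1 = 2)) && decide (u.2 = v.2))) ||
  (decide (u = (4, 0)) && decide (v.1 = 1)) || (decide (u = (4, 1)) && decide (v.1 = 2)) ||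
  (decide (u.1 = 3) && (decide (v = (0, (C.getD u.2 (0, 0, 0)).1)) ||
    decide (v = (0, (C.getD u.2 (0, 0, 0)).2.1)))) ||
  (decide (u = (4, 2)) && decide (v = (4, 3))) || (decide (u = (4, 3)) && decide (v = (4, 4))) ||
  (decide (u = (4, 4)) && decide (v = (4, 5))) || (decide (u = (4, 5)) && decide (v = (4, 2)))

theorem mem_vsP {N K : ℕ} (u : Lab) : u ∈ vsP N K ↔
    (u.1 < 3 ∧ u.2 < N) ∨ (u.1 = 3 ∧ u.2 < K) ∨ (u.1 = 4 ∧ u.2 < 6) := by
  obtain ⟨i, x⟩ := u
  simp only [vsP, List.mem_append, List.mem_flatMap, List.mem_map, List.mem_range, List.mem_cons,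
    List.not_mem_nil, or_false, Prod.mk.injEq]
  constructor
  · rintro (⟨y, hy, h | h | h⟩ | ⟨k, hk, h⟩ | h | h | h | h | h | h) <;> omega
  · rintro (h | h | h)
    · exact Or.inl ⟨x, h.2, by omega⟩
    · exact Or.inr (Or.inl ⟨x, h.2, by omega⟩)
    · right; right
      omega

theorem nodup_vsP (N K : ℕ) : (vsP N K).Nodup := by
  unfold vsP
  rw [List.nodup_append]
  refine ⟨?_, ?_, ?_⟩
  · refine nodup_flatMap_of (fun u : Lab => u.2) List.nodup_range ?_ ?_
    · intro x _
      simp
    · intro x _ u hu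
      simp only [List.mem_cons, List.not_mem_nil, or_false] at hu
      rcases hu with rfl | rfl | rfl <;> rfl
  · rw [List.nodup_append]
    refine ⟨List.Nodup.map (fun a b h => by simpa using h) List.nodup_range, by decide, ?_⟩
    intro a ha b hb hab
    simp only [List.mem_map, List.mem_range] at ha
    obtain ⟨k, _, rfl⟩ := ha
    subst hab
    simp at hb
  · intro a ha b hb hab
    subst hab
    simp only [List.mem_flatMap, List.mem_range, List.mem_cons, List.not_mem_nil, or_false] at ha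
    simp only [List.mem_append, List.mem_map, List.mem_range, List.mem_cons, List.not_mem_nil,
      or_false] at hb
    obtain ⟨x, _, rfl | rfl | rfl⟩ := ha <;> simp at hb

/-- the positions of the elements are different and satisfy the constraints -/
def Lin (N : ℕ) (C : List Con) (t : ℕ → ℝ) : Prop :=
  (∀ x y, x < N → y < N → x ≠ y → t x ≠ t y) ∧
    ∀ c ∈ C, ¬ (t c.1 < t c.2.2 ∧ t c.2.2 < t c.2.1) ∧ ¬ (t c.2.1 < t c.2.2 ∧ t c.2.2 < t c.1)

/-- validity of constraints -/
def ConOk (N : ℕ) (C : List Con) : Prop :=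
  ∀ c ∈ C, c.1 < N ∧ c.2.1 < N ∧ c.2.2 < N ∧ c.2.2 ≠ c.1 ∧ c.2.2 ≠ c.2.1

theorem sound {N : ℕ} {C : List Con} (hC : ConOk N C)
    (h : GenPCG (labGraph (vsP N C.length) (adjE C)) (labGraph (vsP N C.length) (adjS C))) :
    ∃ t : ℕ → ℝ, Lin N C t := by
  classical
  obtain ⟨L, dmin, dmax, _, hmm, hE, hS⟩ := h
  have h0 : ((4, 0) : Lab) ∈ vsP N C.length := (mem_vsP _).2 (by simp)
  let g : Lab → {x // x ∈ vsP N C.length} := fun u =>
    if h : u ∈ vsP N C.length then ⟨u, h⟩ else ⟨(4, 0), h0⟩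
  have hg : ∀ u (h : u ∈ vsP N C.length), g u = ⟨u, h⟩ := fun u h => by simp only [g, h, dif_pos]
  let d : Lab → Lab → ℝ := fun u v => L.dist (g u) (g v)
  have hd : Four d := ⟨fun u v => L.dist_comm _ _, fun x y z t => four_point L _ _ _ _⟩
  have hE' : ∀ u v, u ∈ vsP N C.length → v ∈ vsP N C.length → u ≠ v → adjE C u v = true →
      dmin ≤ d u v ∧ d u v ≤ dmax := by
    intro u v hu hv huv ha
    have := (hE ⟨u, hu⟩ ⟨v, hv⟩ ⟨fun h => huv (congrArg Subtype.val h), Or.inl ha⟩).2
    simpa only [d, hg u hu, hg v hv] using this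
  have hS' : ∀ u v, u ∈ vsP N C.length → v ∈ vsP N C.length → u ≠ v → adjS C u v = true →
      d u v < dmin ∨ dmax < d u v := by
    intro u v hu hv huv ha
    have hne : (⟨u, hu⟩ : {x // x ∈ vsP N C.length}) ≠ ⟨v, hv⟩ :=
      fun h => huv (congrArg Subtype.val h)
    have := hS ⟨u, hu⟩ ⟨v, hv⟩ ⟨hne, Or.inl ha⟩
    by_contra hcon
    push Not at hcon
    refine this ⟨hne, ?_⟩
    simpa only [d, hg u hu, hg v hv] using hcon
  have m4 : ∀ j < 6, ((4, j) : Lab) ∈ vsP N C.length := fun j hj => (mem_vsP _).2 (by simp [hj])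
  -- the four further vertices
  have hub : ∃ h h' : Lab, (h = (4, 2) ∨ h = (4, 3) ∨ h = (4, 4) ∨ h = (4, 5)) ∧
      (h' = (4, 2) ∨ h' = (4, 3) ∨ h' = (4, 4) ∨ h' = (4, 5)) ∧ dmax < d h h' := by
    have k1 := (hE' (4, 2) (4, 4) (m4 _ (by omega)) (m4 _ (by omega)) (by simp) (by simp [adjE])).1
    have k2 := (hE' (4, 3) (4, 5) (m4 _ (by omega)) (m4 _ (by omega)) (by simp) (by simp [adjE])).1
    have s1 := hS' (4, 2) (4, 3) (m4 _ (by omega)) (m4 _ (by omega)) (by simp) (by simp [adjS])
    have s2 := hS' (4, 3) (4, 4) (m4 _ (by omega)) (m4 _ (by omega)) (by simp) (by simp [adjS])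
    have s3 := hS' (4, 4) (4, 5) (m4 _ (by omega)) (m4 _ (by omega)) (by simp) (by simp [adjS])
    have s4 := hS' (4, 5) (4, 2) (m4 _ (by omega)) (m4 _ (by omega)) (by simp) (by simp [adjS])
    rcases s1 with s1 | s1
    · rcases s2 with s2 | s2
      · rcases s3 with s3 | s3
        · rcases s4 with s4 | s4
          · exfalso
            have e1 := hd.symm (4, 4) (4, 5)
            have e2 := hd.symm (4, 2) (4, 5)
            have e3 := hd.symm (4, 4) (4, 3)
            have f := hd.four (4, 2) (4, 4) (4, 3) (4, 5)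
            rcases le_max_iff.1 f with f | f <;> linarith
          · exact ⟨_, _, by simp, by simp, s4⟩
        · exact ⟨_, _, by simp, by simp, s3⟩
      · exact ⟨_, _, by simp, by simp, s2⟩
    · exact ⟨_, _, by simp, by simp, s1⟩
  obtain ⟨h, h', hh, hh', hlarge⟩ := hub
  have hubE : ∀ u : Lab, u ∈ vsP N C.length → (u.1 < 4 ∨ u.2 < 2) → ∀ k : Lab,
      (k = (4, 2) ∨ k = (4, 3) ∨ k = (4, 4) ∨ k = (4, 5)) → d k u ≤ dmax := by
    intro u hu hu' k hk
    have hne : k ≠ u := by
      rintro rfl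
      rcases hk with rfl | rfl | rfl | rfl <;> simp at hu'
    refine (hE' k u ?_ hu hne ?_).2
    · rcases hk with rfl | rfl | rfl | rfl <;> exact m4 _ (by omega)
    · rcases hk with rfl | rfl | rfl | rfl <;> rcases hu' with hu' | hu' <;> simp [adjE, hu']
  -- the pairs of `S` are close
  have small : ∀ u v, u ∈ vsP N C.length → v ∈ vsP N C.length → u ≠ v → (u.1 < 4 ∨ u.2 < 2) →
      (v.1 < 4 ∨ v.2 < 2) → adjS C u v = true → d u v < dmin := by
    intro u v hu hv huv h1 h2 ha
    have f := hd.four h h' u v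
    have e1 := hubE u hu h1 h hh
    have e2 := hubE u hu h1 h' hh'
    have e3 := hubE v hv h2 h hh
    have e4 := hubE v hv h2 h' hh'
    rcases hS' u v hu hv huv ha with k | k
    · exact k
    · exfalso
      rcases le_max_iff.1 f with f | f <;> linarith
  have m0 : ∀ x < N, ((0, x) : Lab) ∈ vsP N C.length := fun x hx => (mem_vsP _).2 (by simp [hx])
  have m1 : ∀ x < N, ((1, x) : Lab) ∈ vsP N C.length := fun x hx => (mem_vsP _).2 (by simp [hx])
  have m2 : ∀ x < N, ((2, x) : Lab) ∈ vsP N C.length := fun x hx => (mem_vsP _).2 (by simp [hx])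
  have a0 := m4 0 (by omega)
  have a1 := m4 1 (by omega)
  -- the elements are close to the line
  have hx : ∀ x < N, Pool.Agent.Y541.PCG.hh d (4, 0) (4, 1) (0, x) < dmin / 2 := by
    intro x hx
    refine hh_lt (4, 0) (4, 1) hd (l := (1, x)) (r := (2, x)) ?_ ?_ ?_ ?_ ?_ ?_ ?_
    · exact small _ _ a0 (m1 x hx) (by simp) (by simp) (by simp) (by simp [adjS])
    · exact small _ _ (m0 x hx) (m1 x hx) (by simp) (by simp) (by simp) (by simp [adjS])
    · exact small _ _ (m0 x hx) (m2 x hx) (by simp) (by simp) (by simp) (by simp [adjS])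
    · exact small _ _ a1 (m2 x hx) (by simp) (by simp) (by simp) (by simp [adjS])
    · exact (hE' _ _ (m1 x hx) (m2 x hx) (by simp) (by simp [adjE])).1
    · exact (hE' _ _ a0 (m2 x hx) (by simp) (by simp [adjE])).1
    · exact (hE' _ _ a1 (m1 x hx) (by simp) (by simp [adjE])).1
  have hfar : ∀ x y, x < N → y < N → x ≠ y → dmin ≤ d (0, x) (0, y) := by
    intro x y hx hy hxy
    exact (hE' _ _ (m0 x hx) (m0 y hy) (by simpa using hxy) (by simp [adjE])).1
  refine ⟨fun x => tt d (4, 0) (4, 1) (0, x), ?_, ?_⟩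
  · intro x y hxN hyN hxy heq
    have h1 := tt_far (4, 0) (4, 1) hd (hx x hxN) (hx y hyN) (hfar x y hxN hyN hxy) heq.le
    have h2 := hx x hxN
    have h3 := hx y hyN
    simp only at heq
    linarith
  · intro c hc
    obtain ⟨c1, c2, c3, c4, c5⟩ := hC c hc
    obtain ⟨k, hk, hck⟩ := List.getElem_of_mem hc
    have hget : C.getD k (0, 0, 0) = c := by
      rw [List.getD_eq_getElem?_getD, List.getElem?_eq_getElem hk, hck]
      rfl
    have m3 : ((3, k) : Lab) ∈ vsP N C.length := (mem_vsP _).2 (by simp [hk])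
    have u1 : d (3, k) (0, c.1) < dmin :=
      small _ _ m3 (m0 _ c1) (by simp) (by simp) (by simp) (by simp only [adjS, hget]; simp)
    have u2 : d (3, k) (0, c.2.1) < dmin :=
      small _ _ m3 (m0 _ c2) (by simp) (by simp) (by simp) (by simp only [adjS, hget]; simp)
    have u3 : dmin ≤ d (3, k) (0, c.2.2) :=
      (hE' _ _ m3 (m0 _ c3) (by simp) (by simp only [adjE, hget]; simp)).1
    refine ⟨?_, ?_⟩
    · exact not_between (4, 0) (4, 1) hd (hx _ c1) (hx _ c2) (hx _ c3)
        (hfar _ _ c1 c3 c4.symm) (hfar _ _ c2 c3 c5.symm) u1 u2 u3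
    · exact not_between (4, 0) (4, 1) hd (hx _ c2) (hx _ c1) (hx _ c3)
        (hfar _ _ c2 c3 c5.symm) (hfar _ _ c1 c3 c4.symm) u2 u1 u3

end Pool.Agent.Y541.PCG
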