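import Pool.Agent.Y541.PCG.Defs

/-!
# Weighted trees given by a parent function

Construction of a tree of the following form: a root `0` with the neighbours `1`, `2`, `3`, a path
`3, 4, ..., M + 3`, and leaves attached to the vertices `1, ..., M + 3`.
-/

set_option autoImplicit false

namespace Pool.Agent.Y541.PCG

open SimpleGraph

section Parent

variable {W : Type} (rt : W) (p : W → W)

/-- The graph of a parent function. -/
def parGraph (ht : W → ℕ) (h : ∀ x, x ≠ rt → ht (p x) < ht x) : SimpleGraph W where
  Adj x y := (x ≠ rt ∧ p x = y) ∨ (y ≠ rt ∧ p y = x)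
  symm := ⟨fun _ _ h => h.symm⟩
  loopless := ⟨fun x hx => by
    rcases hx with ⟨h1, h2⟩ | ⟨h1, h2⟩ <;>
    · have := h x h1
      rw [h2] at this
      omega⟩

variable {rt p} {ht : W → ℕ} (h : ∀ x, x ≠ rt → ht (p x) < ht x)

theorem parGraph_adj {x : W} (hx : x ≠ rt) : (parGraph rt p ht h).Adj x (p x) :=
  Or.inl ⟨hx, rfl⟩

theorem parGraph_isTree [Finite W] : (parGraph rt p ht h).IsTree := by
  classical
  rw [isTree_iff_connected_and_card]
  constructor
  · have hr : ∀ n : ℕ, ∀ x, ht x = n → (parGraph rt p ht h).Reachable x rt := by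
      intro n
      induction n using Nat.strong_induction_on with
      | _ n ih =>
        intro x hx
        by_cases hxr : x = rt
        · rw [hxr]
        · exact (parGraph_adj h hxr).reachable.trans (ih (ht (p x)) (hx ▸ h x hxr) _ rfl)
    exact { preconnected := fun x y => (hr _ x rfl).trans (hr _ y rfl).symm, nonempty := ⟨rt⟩ }
  · let f : {x : W // x ≠ rt} → (parGraph rt p ht h).edgeSet :=
      fun x => ⟨s(x.1, p x.1), parGraph_adj h x.2⟩
    have hf : Function.Bijective f := by
      constructor
      · rintro ⟨x, hx⟩ ⟨y, hy⟩ hxy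
        simp only [f, Subtype.mk.injEq, Sym2.eq_iff] at hxy
        rcases hxy with ⟨rfl, _⟩ | ⟨h1, h2⟩
        · rfl
        · exfalso
          have h3 := h x hx
          have h4 := h y hy
          rw [h2] at h3
          rw [← h1] at h4
          omega
      · rintro ⟨e, he⟩
        induction e using Sym2.ind with
        | _ x y =>
          rcases he with ⟨h1, h2⟩ | ⟨h1, h2⟩
          · exact ⟨⟨x, h1⟩, by simp only [f, h2]⟩
          · exact ⟨⟨y, h1⟩, by simp only [f, h2, Subtype.mk.injEq]; exact Sym2.eq_swap⟩
    rw [← Nat.card_congr (Equiv.ofBijective f hf)]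
    have := Fintype.ofFinite W
    rw [Nat.card_eq_fintype_card, Nat.card_eq_fintype_card, Fintype.card_subtype_compl,
      Fintype.card_subtype_eq]
    have : 0 < Fintype.card W := Fintype.card_pos_iff.2 ⟨rt⟩
    omega

open Classical in
/-- The weights of the edges, from the weights of the edges from the vertices to their parents. -/
noncomputable def parW (rt : W) (p : W → W) (wv : W → ℝ) (e : Sym2 W) : ℝ :=
  Sym2.lift ⟨fun x y => (if x ≠ rt ∧ p x = y then wv x else 0) +
    (if y ≠ rt ∧ p y = x then wv y else 0), fun x y => add_comm _ _⟩ e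

include h in
theorem parW_edge (wv : W → ℝ) {x : W} (hx : x ≠ rt) : parW rt p wv s(x, p x) = wv x := by
  unfold parW
  rw [Sym2.lift_mk]
  simp only
  rw [if_pos ⟨hx, rfl⟩, if_neg, add_zero]
  rintro ⟨h1, h2⟩
  have h3 := h x hx
  have h4 := h (p x) h1
  rw [h2] at h4
  omega

include h in
theorem parW_edge' (wv : W → ℝ) {x : W} (hx : x ≠ rt) : parW rt p wv s(p x, x) = wv x := by
  rw [Sym2.eq_swap]
  exact parW_edge h wv hx

theorem parW_pos (wv : W → ℝ) (hw : ∀ x, x ≠ rt → 0 < wv x) (e : Sym2 W)
    (he : e ∈ (parGraph rt p ht h).edgeSet) : 0 < parW rt p wv e := by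
  induction e using Sym2.ind with
  | _ x y =>
    rcases he with ⟨h1, h2⟩ | ⟨h1, h2⟩
    · simp only at h1 h2
      subst h2
      rw [parW_edge h wv h1]
      exact hw x h1
    · simp only at h1 h2
      subst h2
      rw [parW_edge' h wv h1]
      exact hw y h1

end Parent

/-- Computation of the weight of the path to a vertex `y` by a function which decreases along the
path. -/
theorem path_weight {W : Type} {T : SimpleGraph W} (w : Sym2 W → ℝ) {y : W} (n : W → ℕ)
    (δ : W → ℝ) (hy : δ y = 0)
    (hstep : ∀ x, x ≠ y → ∃ x', T.Adj x x' ∧ n x' < n x ∧ δ x = w s(x, x') + δ x') (x : W) :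
    ∃ q : T.Walk x y, q.IsPath ∧ (q.edges.map w).sum = δ x := by
  have key : ∀ k : ℕ, ∀ x, n x = k → ∃ q : T.Walk x y, q.IsPath ∧ (q.edges.map w).sum = δ x ∧
      ∀ z ∈ q.support, n z ≤ n x := by
    intro k
    induction k using Nat.strong_induction_on with
    | _ k ih =>
      intro x hx
      by_cases hxy : x = y
      · subst hxy
        refine ⟨Walk.nil, Walk.IsPath.nil, ?_, ?_⟩
        · simp [hy]
        · simp
      · obtain ⟨x', h1, h2, h3⟩ := hstep x hxy
        obtain ⟨q, hq, hq2, hq3⟩ := ih (n x') (hx ▸ h2) x' rfl
        refine ⟨Walk.cons h1 q, ?_, ?_, ?_⟩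
        · rw [Walk.cons_isPath_iff]
          refine ⟨hq, fun hmem => ?_⟩
          have := hq3 x hmem
          omega
        · rw [Walk.edges_cons, List.map_cons, List.sum_cons, hq2, h3]
        · intro z hz
          rw [Walk.support_cons, List.mem_cons] at hz
          rcases hz with rfl | hz
          · exact le_rfl
          · exact (hq3 z hz).trans h2.le
  obtain ⟨q, h1, h2, _⟩ := key _ x rfl
  exact ⟨q, h1, h2⟩

/-! ### The base -/

/-- parent in the base -/
def bpar (k : ℕ) : ℕ := if k ≤ 3 then 0 else k - 1

/-- weight of the edge from `k` to its parent -/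
def bw (F k : ℕ) : ℝ := if k = 3 then 4 * (F : ℝ) else if k < 3 then 7 * (F : ℝ) else 1

/-- distance in the base -/
noncomputable def bd (F k b : ℕ) : ℝ :=
  if 3 ≤ k then (if 3 ≤ b then |(k : ℝ) - b| else (4 * (F : ℝ) + ((k : ℝ) - 3)) +
      (if b = 0 then 0 else 7 * (F : ℝ)))
  else if 3 ≤ b then (4 * (F : ℝ) + ((b : ℝ) - 3)) + (if k = 0 then 0 else 7 * (F : ℝ))
  else if k = b then 0 else (if k = 0 then 0 else 7 * (F : ℝ)) + (if b = 0 then 0 else 7 * (F : ℝ))

/-- number of edges in the base -/
def nb (k b : ℕ) : ℕ :=
  if 3 ≤ k then (if 3 ≤ b then (k - b) + (b - k) else (k - 2) + (if b = 0 then 0 else 1))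
  else if 3 ≤ b then (b - 2) + (if k = 0 then 0 else 1)
  else if k = b then 0 else (if k = 0 then 0 else 1) + (if b = 0 then 0 else 1)

theorem nb_self (k : ℕ) : nb k k = 0 := by
  unfold nb
  split_ifs <;> omega

theorem bd_self (F k : ℕ) : bd F k k = 0 := by
  unfold bd
  by_cases h : 3 ≤ k
  · simp [h]
  · simp [h]

theorem bd_step (F k b M : ℕ) (hk : k < M + 4) (hb : b < M + 4) (hkb : k ≠ b) :
    ∃ k' < M + 4, nb k' b < nb k b ∧
      ((k ≠ 0 ∧ bpar k = k' ∧ bd F k b = bw F k + bd F k' b) ∨
        (k' ≠ 0 ∧ bpar k' = k ∧ bd F k b = bw F k' + bd F k' b)) := by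
  by_cases h3 : 3 ≤ k
  · by_cases hb3 : 3 ≤ b
    · rcases lt_or_gt_of_ne hkb with h | h
      · refine ⟨k + 1, by omega, ?_, Or.inr ⟨by omega, ?_, ?_⟩⟩
        · unfold nb
          simp only [h3, hb3, show 3 ≤ k + 1 by omega, if_true]
          omega
        · unfold bpar
          rw [if_neg (by omega)]
          rfl
        · unfold bd bw
          simp only [h3, hb3, show 3 ≤ k + 1 by omega, if_true, show ¬ (k + 1 = 3) by omega,
            show ¬ (k + 1 < 3) by omega, if_false]
          have h1 : (k : ℝ) + 1 ≤ b := by exact_mod_cast h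
          push_cast
          rw [abs_of_nonpos (by linarith), abs_of_nonpos (by linarith)]
          ring
      · refine ⟨k - 1, by omega, ?_, Or.inl ⟨by omega, ?_, ?_⟩⟩
        · unfold nb
          simp only [h3, hb3, show 3 ≤ k - 1 by omega, if_true]
          omega
        · unfold bpar
          rw [if_neg (by omega)]
        · unfold bd bw
          simp only [h3, hb3, show 3 ≤ k - 1 by omega, if_true, show ¬ (k = 3) by omega,
            show ¬ (k < 3) by omega, if_false]
          have h1 : (b : ℝ) + 1 ≤ k := by exact_mod_cast h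
          have h2 : ((k - 1 : ℕ) : ℝ) = (k : ℝ) - 1 := by
            rw [Nat.cast_sub (by omega)]
            simp
          rw [h2, abs_of_nonneg (by linarith), abs_of_nonneg (by linarith)]
          ring
    · by_cases hk3 : k = 3
      · subst hk3
        refine ⟨0, by omega, ?_, Or.inl ⟨by omega, rfl, ?_⟩⟩
        · unfold nb
          simp only [hb3, if_false, if_true, le_refl, show ¬ (3 ≤ 0) by omega]
          split_ifs <;> omega
        · unfold bd bw
          simp only [hb3, if_false, if_true, le_refl, show ¬ (3 ≤ 0) by omega]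
          split_ifs <;> first | omega | (push_cast; ring)
      · refine ⟨k - 1, by omega, ?_, Or.inl ⟨by omega, ?_, ?_⟩⟩
        · unfold nb
          simp only [h3, hb3, show 3 ≤ k - 1 by omega, if_true, if_false]
          omega
        · unfold bpar
          rw [if_neg (by omega)]
        · unfold bd bw
          simp only [h3, hb3, show 3 ≤ k - 1 by omega, if_true, hk3,
            show ¬ (k < 3) by omega, if_false]
          have h2 : ((k - 1 : ℕ) : ℝ) = (k : ℝ) - 1 := by
            rw [Nat.cast_sub (by omega)]
            simp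
          rw [h2]
          ring
  · by_cases hk0 : k = 0
    · subst hk0
      by_cases hb3 : 3 ≤ b
      · refine ⟨3, by omega, ?_, Or.inr ⟨by omega, rfl, ?_⟩⟩
        · unfold nb
          simp only [hb3, if_true]
          split_ifs <;> omega
        · unfold bd bw
          have h1 : (3 : ℝ) ≤ b := by exact_mod_cast hb3
          simp only [hb3, if_true, le_refl]
          push_cast
          rw [abs_of_nonpos (by linarith)]
          simp
      · refine ⟨b, by omega, ?_, Or.inr ⟨by omega, ?_, ?_⟩⟩
        · unfold nb
          simp only [hb3, if_false, show ¬ (3 ≤ 0) by omega]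
          split_ifs <;> omega
        · unfold bpar
          rw [if_pos (by omega)]
        · unfold bd bw
          simp only [hb3, if_false, if_true, show ¬ (3 ≤ 0) by omega]
          split_ifs <;> first | omega | (push_cast; ring)
    · refine ⟨0, by omega, ?_, Or.inl ⟨hk0, ?_, ?_⟩⟩
      · unfold nb
        split_ifs <;> omega
      · unfold bpar
        rw [if_pos (by omega)]
      · unfold bd bw
        split_ifs <;> first | omega | (push_cast; ring)

/-! ### The tree -/

section Tree

variable {V : Type} (F M : ℕ) (att : V → ℕ) (hatt : ∀ v, 0 < att v ∧ att v < M + 4)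
  (pend : V → ℝ)

/-- parent -/
def tpar (x : Fin (M + 4) ⊕ V) : Fin (M + 4) ⊕ V :=
  match x with
  | Sum.inl k => Sum.inl ⟨bpar k, by have := k.2; unfold bpar; split_ifs <;> omega⟩
  | Sum.inr v => Sum.inl ⟨att v, (hatt v).2⟩

/-- height -/
def tht (x : Fin (M + 4) ⊕ V) : ℕ :=
  match x with
  | Sum.inl k => k
  | Sum.inr _ => M + 4

/-- the root -/
def trt : Fin (M + 4) ⊕ V := Sum.inl ⟨0, by omega⟩

/-- weights -/
noncomputable def tw (x : Fin (M + 4) ⊕ V) : ℝ :=
  match x with
  | Sum.inl k => bw F k
  | Sum.inr v => pend v

theorem tht_lt (x : Fin (M + 4) ⊕ V) (hx : x ≠ trt M) :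
    tht M (tpar M att hatt x) < tht M x := by
  rcases x with k | v
  · simp only [tpar, tht]
    have h0 : k.1 ≠ 0 := by
      intro h0
      apply hx
      unfold trt
      congr 1
      exact Fin.ext h0
    unfold bpar
    split_ifs <;> omega
  · simp only [tpar, tht]
    exact (hatt v).2

variable [Finite V]

/-- The weighted tree. -/
noncomputable def theTree (hF : 0 < F) (hpend : ∀ v, 0 < pend v) (h1 : ∃ v, att v = 1)
    (h2 : ∃ v, att v = 2) (hM : 0 < M) (hl : ∃ v, att v = M + 3) : LeafTree V where
  W := Fin (M + 4) ⊕ V
  finite := inferInstance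
  T := parGraph (trt M) (tpar M att hatt) (tht M) (tht_lt M att hatt)
  isTree := parGraph_isTree _
  w := parW (trt M) (tpar M att hatt) (tw F M pend)
  w_pos := parW_pos _ _ (by
    intro x _
    rcases x with k | v
    · have : (0 : ℝ) < F := by exact_mod_cast hF
      simp only [tw, bw]
      split_ifs <;> first | positivity
    · exact hpend v)
  leaf := Sum.inr
  leaf_inj := Sum.inr_injective
  leaf_iff := by
    intro x
    have hr : ∀ v : V, (Sum.inr v : Fin (M + 4) ⊕ V) ≠ trt M := fun v => by simp [trt]
    have hlk : ∀ k : Fin (M + 4), k.1 ≠ 0 → (Sum.inl k : Fin (M + 4) ⊕ V) ≠ trt M := by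
      intro k hk h
      apply hk
      simp only [trt, Sum.inl.injEq] at h
      rw [h]
    constructor
    · rintro ⟨v, rfl⟩
      rw [Set.ncard_eq_one]
      refine ⟨tpar M att hatt (Sum.inr v), ?_⟩
      ext y
      simp only [mem_neighborSet, Set.mem_singleton_iff]
      constructor
      · rintro (⟨_, h⟩ | ⟨_, h⟩)
        · exact h.symm
        · rcases y with k | u <;> simp [tpar] at h
      · rintro rfl
        exact parGraph_adj _ (hr v)
    · intro h
      rcases x with k | v
      · exfalso
        obtain ⟨a, ha⟩ := Set.ncard_eq_one.1 h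
        have two : ∀ y z, y ∈ (parGraph (trt M) (tpar M att hatt) (tht M)
            (tht_lt M att hatt)).neighborSet (Sum.inl k) →
            z ∈ (parGraph (trt M) (tpar M att hatt) (tht M)
            (tht_lt M att hatt)).neighborSet (Sum.inl k) → y ≠ z → False := by
          intro y z hy hz hyz
          rw [ha] at hy hz
          exact hyz (hy.trans hz.symm)
        by_cases k0 : k.1 = 0
        · refine two (Sum.inl ⟨1, by omega⟩) (Sum.inl ⟨2, by omega⟩) ?_ ?_ (by simp)
          · refine Or.inr ⟨hlk _ (by simp), ?_⟩
            simp only [tpar, Sum.inl.injEq]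
            exact Fin.ext (by simp [bpar, k0])
          · refine Or.inr ⟨hlk _ (by simp), ?_⟩
            simp only [tpar, Sum.inl.injEq]
            exact Fin.ext (by simp [bpar, k0])
        · by_cases k1 : k.1 = 1
          · obtain ⟨v, hv⟩ := h1
            refine two (tpar M att hatt (Sum.inl k)) (Sum.inr v) (parGraph_adj (tht_lt M att hatt) (hlk k k0)) ?_
              (by simp [tpar])
            refine Or.inr ⟨hr v, ?_⟩
            simp only [tpar, Sum.inl.injEq]
            exact Fin.ext (by simp [hv, k1])
          · by_cases k2 : k.1 = 2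
            · obtain ⟨v, hv⟩ := h2
              refine two (tpar M att hatt (Sum.inl k)) (Sum.inr v) (parGraph_adj (tht_lt M att hatt) (hlk k k0)) ?_
                (by simp [tpar])
              refine Or.inr ⟨hr v, ?_⟩
              simp only [tpar, Sum.inl.injEq]
              exact Fin.ext (by simp [hv, k2])
            · by_cases k3 : k.1 = M + 3
              · obtain ⟨v, hv⟩ := hl
                refine two (tpar M att hatt (Sum.inl k)) (Sum.inr v) (parGraph_adj (tht_lt M att hatt) (hlk k k0)) ?_
                  (by simp [tpar])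
                refine Or.inr ⟨hr v, ?_⟩
                simp only [tpar, Sum.inl.injEq]
                exact Fin.ext (by simp [hv, k3])
              · have hk := k.2
                refine two (tpar M att hatt (Sum.inl k)) (Sum.inl ⟨k.1 + 1, by omega⟩)
                  (parGraph_adj (tht_lt M att hatt) (hlk k k0)) ?_ ?_
                · refine Or.inr ⟨hlk _ (by simp), ?_⟩
                  simp only [tpar, Sum.inl.injEq]
                  refine Fin.ext ?_
                  simp only [bpar]
                  rw [if_neg (by omega)]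
                  omega
                · intro h
                  simp only [tpar, Sum.inl.injEq, Fin.mk.injEq, bpar] at h
                  split_ifs at h <;> omega
      · exact ⟨v, rfl⟩

theorem theTree_dist (hF : 0 < F) (hpend : ∀ v, 0 < pend v) (h1 : ∃ v, att v = 1)
    (h2 : ∃ v, att v = 2) (hM : 0 < M) (hl : ∃ v, att v = M + 3) {u v : V} (huv : u ≠ v) :
    (theTree F M att hatt pend hF hpend h1 h2 hM hl).dist u v =
      pend u + bd F (att u) (att v) + pend v := by
  classical
  set L := theTree F M att hatt pend hF hpend h1 h2 hM hl with hL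
  have hr : ∀ v : V, (Sum.inr v : Fin (M + 4) ⊕ V) ≠ trt M := fun v => by simp [trt]
  have hlk : ∀ k : Fin (M + 4), k.1 ≠ 0 → (Sum.inl k : Fin (M + 4) ⊕ V) ≠ trt M := by
    intro k hk h
    apply hk
    simp only [trt, Sum.inl.injEq] at h
    rw [h]
  let n : Fin (M + 4) ⊕ V → ℕ := fun x => match x with
    | Sum.inl k => nb k (att v) + 1
    | Sum.inr u => if u = v then 0 else nb (att u) (att v) + 2
  let δ : Fin (M + 4) ⊕ V → ℝ := fun x => match x with
    | Sum.inl k => bd F k (att v) + pend v
    | Sum.inr u => if u = v then 0 else pend u + bd F (att u) (att v) + pend v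
  have hwv : ∀ x, x ≠ trt M → parW (trt M) (tpar M att hatt) (tw F M pend)
      s(x, tpar M att hatt x) = tw F M pend x := fun x hx =>
    parW_edge (tht_lt M att hatt) _ hx
  have hwv' : ∀ x, x ≠ trt M → parW (trt M) (tpar M att hatt) (tw F M pend)
      s(tpar M att hatt x, x) = tw F M pend x := fun x hx =>
    parW_edge' (tht_lt M att hatt) _ hx
  obtain ⟨q, hq, hqs⟩ := path_weight (T := parGraph (trt M) (tpar M att hatt) (tht M)
    (tht_lt M att hatt)) (parW (trt M) (tpar M att hatt) (tw F M pend))
    (y := Sum.inr v) n δ (by simp [δ]) (by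
      intro x hx
      rcases x with k | u'
      · by_cases hk : k.1 = att v
        · have hp : tpar M att hatt (Sum.inr v) = Sum.inl k := by
            simp only [tpar, Sum.inl.injEq]
            exact Fin.ext hk.symm
          refine ⟨Sum.inr v, Or.inr ⟨hr v, hp⟩, ?_, ?_⟩
          · simp [n]
          · have := hwv' (Sum.inr v) (hr v)
            rw [hp] at this
            rw [this]
            simp [δ, hk, bd_self, tw]
        · obtain ⟨k', hk', hn, hor⟩ := bd_step F k.1 (att v) M k.2 (hatt v).2 hk
          refine ⟨Sum.inl ⟨k', hk'⟩, ?_, ?_, ?_⟩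
          · rcases hor with ⟨g1, g2, _⟩ | ⟨g1, g2, _⟩
            · refine Or.inl ⟨hlk k g1, ?_⟩
              simp only [tpar, Sum.inl.injEq]
              exact Fin.ext g2
            · refine Or.inr ⟨hlk _ g1, ?_⟩
              simp only [tpar, Sum.inl.injEq]
              exact Fin.ext g2
          · simp only [n]
            omega
          · rcases hor with ⟨g1, g2, g3⟩ | ⟨g1, g2, g3⟩
            · have hp : tpar M att hatt (Sum.inl k) = Sum.inl ⟨k', hk'⟩ := by
                simp only [tpar, Sum.inl.injEq]
                exact Fin.ext g2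
              have := hwv (Sum.inl k) (hlk k g1)
              rw [hp] at this
              rw [this]
              simp only [δ, tw, g3]
              ring
            · have hp : tpar M att hatt (Sum.inl ⟨k', hk'⟩) = Sum.inl k := by
                simp only [tpar, Sum.inl.injEq]
                exact Fin.ext g2
              have := hwv' (Sum.inl ⟨k', hk'⟩) (hlk _ g1)
              rw [hp] at this
              rw [this]
              simp only [δ, tw, g3]
              ring
      · have hne : u' ≠ v := fun h => hx (by rw [h])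
        refine ⟨tpar M att hatt (Sum.inr u'), parGraph_adj _ (hr u'), ?_, ?_⟩
        · simp only [n, tpar, hne, if_false]
          omega
        · rw [hwv _ (hr u')]
          simp only [δ, tpar, tw, hne, if_false]
          ring) (Sum.inr u)
  have hdist : L.dist u v = (q.edges.map (parW (trt M) (tpar M att hatt) (tw F M pend))).sum := by
    unfold LeafTree.dist
    have hpe : L.path (L.leaf u) (L.leaf v) = q := L.path_eq hq
    rw [hpe]
    rfl
  rw [hdist, hqs]
  simp only [δ, huv, if_false]

end Tree

end Pool.Agent.Y541.PCG
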